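import Pool.Agent.U469.RT.Stm

/-!
Project RT, package OPR: rules for `Op`.
-/

set_option autoImplicit false

namespace Pool.Agent.U423.RT.OPR

open Pool.Agent.R248.Ritt Pool.Agent.U469.RT Finset

theorem coeff_zero (k : ℤ) : (0 : A).coeff k = 0 := by simp

theorem su_zero : SU (0 : A) where
  nonneg k := by rw [coeff_zero]
  symm k := by rw [coeff_zero, coeff_zero]
  anti k _ := by rw [coeff_zero, coeff_zero]

theorem coeff_add (f g : A) (k : ℤ) : (f + g).coeff k = f.coeff k + g.coeff k := by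
  rw [AddMonoidAlgebra.coeff_add]; rfl

theorem coeff_smul (t : ℝ) (f : A) (k : ℤ) : (t • f).coeff k = t * f.coeff k := by
  rw [AddMonoidAlgebra.coeff_smul_apply, smul_eq_mul]

theorem su_add {f g : A} (hf : SU f) (hg : SU g) : SU (f + g) where
  nonneg k := by rw [coeff_add]; exact add_nonneg (hf.nonneg k) (hg.nonneg k)
  symm k := by rw [coeff_add, coeff_add, hf.symm, hg.symm]
  anti k hk := by rw [coeff_add, coeff_add]; exact add_le_add (hf.anti k hk) (hg.anti k hk)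

theorem su_smul {f : A} (hf : SU f) {t : ℝ} (ht : 0 ≤ t) : SU (t • f) where
  nonneg k := by rw [coeff_smul]; exact mul_nonneg ht (hf.nonneg k)
  symm k := by rw [coeff_smul, coeff_smul, hf.symm]
  anti k hk := by
    rw [coeff_smul, coeff_smul]
    exact mul_le_mul_of_nonneg_left (hf.anti k hk) ht

theorem op_one : Op 1 0 1 := by
  intro g Φ hΦ hg
  refine ⟨Φ, hΦ, fun k => ?_, ?_, ?_⟩
  · rw [one_mul]; exact hg k
  · simp
  · simp

theorem op_U (r : ℕ) : Op 1 0 (U r) := by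
  intro g Φ hΦ hg
  have hr : (0 : ℝ) ≤ ((2 * r + 1 : ℝ))⁻¹ := by positivity
  refine ⟨U r * Φ, hΦ.U_mul r, fun k => ?_, ?_, ?_⟩
  · rw [coeff_U_mul, coeff_U_mul, abs_mul, abs_of_nonneg hr]
    refine mul_le_mul_of_nonneg_left ?_ hr
    exact (abs_sum_le_sum_abs _ _).trans (sum_le_sum fun i _ => hg _)
  · refine (N1_mul_le _ _).trans ?_
    have := mul_le_mul_of_nonneg_right (N1_U_le r) (N1_nonneg Φ)
    linarith
  · rw [coeff_U_mul, one_mul]
    have h1 : ∑ i ∈ range (2 * r + 1), Φ.coeff (0 + r - i) ≤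
        ∑ _i ∈ range (2 * r + 1), Φ.coeff 0 := by
      refine sum_le_sum fun i _ => hΦ.le ?_
      rw [abs_zero]
      exact abs_nonneg _
    rw [sum_const, card_range, nsmul_eq_mul] at h1
    push_cast at h1
    have h2 : (0 : ℝ) < 2 * r + 1 := by positivity
    calc ((2 * r + 1 : ℝ))⁻¹ * ∑ i ∈ range (2 * r + 1), Φ.coeff (0 + r - i)
        ≤ ((2 * r + 1 : ℝ))⁻¹ * ((2 * r + 1) * Φ.coeff 0) := mul_le_mul_of_nonneg_left h1 hr
      _ = Φ.coeff 0 := by rw [inv_mul_cancel_left₀ h2.ne']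

theorem op_add {a b a' b' : ℝ} {h h' : A} (H : Op a b h) (H' : Op a' b' h') :
    Op (a + a') (b + b') (h + h') := by
  intro g Φ hΦ hg
  obtain ⟨Ψ, h1, h2, h3, h4⟩ := H g Φ hΦ hg
  obtain ⟨Ψ', h1', h2', h3', h4'⟩ := H' g Φ hΦ hg
  refine ⟨Ψ + Ψ', su_add h1 h1', fun k => ?_, ?_, ?_⟩
  · rw [add_mul, coeff_add, coeff_add]
    exact (abs_add_le _ _).trans (add_le_add (h2 k) (h2' k))
  · refine (N1_add_le _ _).trans ?_
    linarith
  · rw [coeff_add]
    linarith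

theorem op_smul {a b : ℝ} (t : ℝ) {h : A} (H : Op a b h) : Op (|t| * a) (|t| * b) (t • h) := by
  intro g Φ hΦ hg
  obtain ⟨Ψ, h1, h2, h3, h4⟩ := H g Φ hΦ hg
  have ht := abs_nonneg t
  refine ⟨|t| • Ψ, su_smul h1 ht, fun k => ?_, ?_, ?_⟩
  · rw [smul_mul_assoc, coeff_smul, coeff_smul, abs_mul]
    exact mul_le_mul_of_nonneg_left (h2 k) ht
  · rw [N1_smul, abs_abs]
    calc |t| * N1 Ψ ≤ |t| * (a * N1 Φ + b * Φ.coeff 0) := mul_le_mul_of_nonneg_left h3 ht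
      _ = _ := by ring
  · rw [coeff_smul]
    calc |t| * Ψ.coeff 0 ≤ |t| * (a * Φ.coeff 0) := mul_le_mul_of_nonneg_left h4 ht
      _ = _ := by ring

theorem op_sum {κ : Type} (s : Finset κ) (a b : κ → ℝ) (h : κ → A)
    (H : ∀ i ∈ s, Op (a i) (b i) (h i)) :
    Op (∑ i ∈ s, a i) (∑ i ∈ s, b i) (∑ i ∈ s, h i) := by
  classical
  induction s using Finset.induction_on with
  | empty =>
    intro g Φ hΦ hg
    refine ⟨0, su_zero, fun k => ?_, ?_, ?_⟩
    · simp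
    · simp [N1_zero]
    · simp
  | insert i s hi ih =>
    rw [sum_insert hi, sum_insert hi, sum_insert hi]
    exact op_add (H i (mem_insert_self _ _)) (ih fun j hj => H j (mem_insert_of_mem hj))

theorem op_mul {a b a' b' : ℝ} {h h' : A} (ha : 0 ≤ a) (hb : 0 ≤ b) (H : Op a b h)
    (H' : Op a' b' h') : Op (a * a') (a * b' + b * a') (h * h') := by
  intro g Φ hΦ hg
  obtain ⟨Ψ', h1', h2', h3', h4'⟩ := H' g Φ hΦ hg
  obtain ⟨Ψ, h1, h2, h3, h4⟩ := H (h' * g) Ψ' h1' h2'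
  refine ⟨Ψ, h1, fun k => ?_, ?_, ?_⟩
  · rw [mul_assoc]; exact h2 k
  · have e1 := mul_le_mul_of_nonneg_left h3' ha
    have e2 := mul_le_mul_of_nonneg_left h4' hb
    calc N1 Ψ ≤ a * N1 Ψ' + b * Ψ'.coeff 0 := h3
      _ ≤ a * (a' * N1 Φ + b' * Φ.coeff 0) + b * (a' * Φ.coeff 0) := add_le_add e1 e2
      _ = _ := by ring
  · have e2 := mul_le_mul_of_nonneg_left h4' ha
    calc Ψ.coeff 0 ≤ a * Ψ'.coeff 0 := h4
      _ ≤ a * (a' * Φ.coeff 0) := e2
      _ = _ := by ring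

theorem op_mono {a b a' b' : ℝ} {h : A} (ha : a ≤ a') (hb : b ≤ b') (H : Op a b h) :
    Op a' b' h := by
  intro g Φ hΦ hg
  obtain ⟨Ψ, h1, h2, h3, h4⟩ := H g Φ hΦ hg
  have e0 := hΦ.nonneg 0
  have e1 := mul_le_mul_of_nonneg_right ha (N1_nonneg Φ)
  have e2 := mul_le_mul_of_nonneg_right hb e0
  have e3 := mul_le_mul_of_nonneg_right ha e0
  exact ⟨Ψ, h1, h2, by linarith, by linarith⟩

theorem main : S_OPR :=
  ⟨op_one, op_U, fun _ _ _ _ _ _ H H' => op_add H H', fun _ _ t _ H => op_smul t H,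
    fun _ s a b h H => op_sum s a b h H, fun _ _ _ _ _ _ ha hb H H' => op_mul ha hb H H',
    fun _ _ _ _ _ ha hb H => op_mono ha hb H⟩

end Pool.Agent.U423.RT.OPR
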